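import Pool.Agent.AGR.LastS

/-!
Ageev's conjecture on equivariant maps between free Menger compacta, for groups that contain a power
`A_p ^ k` of the group of `p`-adic integers: there is no equivariant map if the orbit space of the
target has covering dimension at most `k + 2`.  In particular the conjecture holds for all groups that
contain `A_p ^ k` for all `k`, and all actions with finite-dimensional orbit space.
-/

set_option autoImplicit false

namespace Pool.Agent.Results.MP_b5674c_gt.GroupsOfLargeRank

open AGV

/-- The `k`-dimensional Menger compactum, in its standard model: the points of the cube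
`[0,1]^(2k+1)` such that at every level `j` at most `k` of the coordinates `x i` have `3^j x i`
strictly inside the middle third of a unit interval. -/
def MengerCompactum (k : ℕ) : Set (Fin (2 * k + 1) → ℝ) :=
  {x | (∀ i, x i ∈ Set.Icc (0:ℝ) 1) ∧
    ∀ j : ℕ, {i | 1/3 < Int.fract ((3:ℝ) ^ j * x i) ∧
      Int.fract ((3:ℝ) ^ j * x i) < 2/3}.ncard ≤ k}

/-- Ageev's conjecture for groups that contain `A_p ^ k`, for orbit spaces of dimension at most `k + 2`;
in particular for groups of infinite `p`-rank and all finite-dimensional orbit spaces. -/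
theorem result :
    (∀ (p : ℕ) [Fact p.Prime] (k m n : ℕ), 1 ≤ k → 0 < m → 0 < n →
      ∀ (G : Type) [Group G] [TopologicalSpace G] [IsTopologicalGroup G]
      [CompactSpace G] [TotallyDisconnectedSpace G]
      [MulAction G (MengerCompactum (m + n))] [MulAction G (MengerCompactum n)],
      (∃ ι : Multiplicative (Fin k → ℤ_[p]) →* G, Continuous ι ∧ Function.Injective ι) →
      ContinuousSMul G (MengerCompactum (m + n)) → ContinuousSMul G (MengerCompactum n) →
      (∀ (g : G) (y : MengerCompactum n), g • y = y → g = 1) →
      CovDimLE (MulAction.orbitRel.Quotient G (MengerCompactum n)) (k + 2) →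
      ¬ ∃ f : MengerCompactum (m + n) → MengerCompactum n,
        Continuous f ∧ ∀ (g : G) (x : MengerCompactum (m + n)), f (g • x) = g • f x) ∧
    (∀ (p : ℕ) [Fact p.Prime] (m n d : ℕ), 0 < m → 0 < n →
      ∀ (G : Type) [Group G] [TopologicalSpace G] [IsTopologicalGroup G]
      [CompactSpace G] [TotallyDisconnectedSpace G]
      [MulAction G (MengerCompactum (m + n))] [MulAction G (MengerCompactum n)],
      (∀ k : ℕ, ∃ ι : Multiplicative (Fin k → ℤ_[p]) →* G, Continuous ι ∧ Function.Injective ι) →
      ContinuousSMul G (MengerCompactum (m + n)) → ContinuousSMul G (MengerCompactum n) →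
      (∀ (g : G) (y : MengerCompactum n), g • y = y → g = 1) →
      CovDimLE (MulAction.orbitRel.Quotient G (MengerCompactum n)) d →
      ¬ ∃ f : MengerCompactum (m + n) → MengerCompactum n,
        Continuous f ∧ ∀ (g : G) (x : MengerCompactum (m + n)), f (g • x) = g • f x) := by
  have key : ∀ (p : ℕ) [Fact p.Prime] (k m n : ℕ), 1 ≤ k → 0 < m → 0 < n →
      ∀ (G : Type) [Group G] [TopologicalSpace G] [IsTopologicalGroup G]
      [CompactSpace G] [TotallyDisconnectedSpace G]
      [MulAction G (MengerCompactum (m + n))] [MulAction G (MengerCompactum n)],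
      (∃ ι : Multiplicative (Fin k → ℤ_[p]) →* G, Continuous ι ∧ Function.Injective ι) →
      ContinuousSMul G (MengerCompactum (m + n)) → ContinuousSMul G (MengerCompactum n) →
      (∀ (g : G) (y : MengerCompactum n), g • y = y → g = 1) →
      CovDimLE (MulAction.orbitRel.Quotient G (MengerCompactum n)) (k + 2) →
      ¬ ∃ f : MengerCompactum (m + n) → MengerCompactum n,
        Continuous f ∧ ∀ (g : G) (x : MengerCompactum (m + n)), f (g • x) = g • f x := by
    intro p _ k m n hk hm hn G _ _ _ _ _ _ _ hG hX hY hfree hd
    let _ : MulAction G (Helper87.AG.Menger (Fin (2 * (m + n) + 1)) (m + n)) :=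
      inferInstanceAs (MulAction G (MengerCompactum (m + n)))
    let _ : MulAction G (Helper87.AG.Menger (Fin (2 * n + 1)) n) :=
      inferInstanceAs (MulAction G (MengerCompactum n))
    have : ContinuousSMul G (Helper87.AG.Menger (Fin (2 * (m + n) + 1)) (m + n)) := hX
    have : ContinuousSMul G (Helper87.AG.Menger (Fin (2 * n + 1)) n) := hY
    obtain ⟨ι, hc, hi⟩ := hG
    exact AGR.menger_rankS (G := G) (p := p) (k := k) hk hm hn ι hc hi hfree hd
  refine ⟨key, ?_⟩
  intro p _ m n d hm hn G _ _ _ _ _ _ _ hG hX hY hfree hd
  exact key p (d + 1) m n (by omega) hm hn G (hG (d + 1)) hX hY hfree (AGR.covDimLE_monoS (by omega) hd)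

end Pool.Agent.Results.MP_b5674c_gt.GroupsOfLargeRank
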