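import Pool.Agent.AGM.FIN

/-!
Ageev's conjecture on equivariant maps between free Menger compacta, negative direction, source
dimension one above the target dimension. For every prime `p` and every `n ≥ 2` there are free
actions of the group `A_p` of `p`-adic integers on compacta `X` and `Y` that have all the
properties of Bestvina's characterization of the Menger compacta of dimensions `n + 1` and `n`,
and a continuous equivariant map from `X` to `Y`. Such a `Y`, with an equivariant map, exists for
every compact metrizable free `A_p`-space whose orbit space has dimension at most `n + 1`.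
-/

set_option autoImplicit false

namespace Pool.Agent.Results.MP_b5674c_gt.MengerTypePairs

open TopologicalSpace Topology

/-- The `k`-dimensional Menger compactum, in its standard model: the points of the cube
`[0,1]^(2k+1)` such that at every level `j` at most `k` of the coordinates `x i` have `3^j x i`
strictly inside the middle third of a unit interval. -/
def MengerCompactum (k : ℕ) : Set (Fin (2 * k + 1) → ℝ) :=
  {x | (∀ i, x i ∈ Set.Icc (0:ℝ) 1) ∧
    ∀ j : ℕ, {i | 1/3 < Int.fract ((3:ℝ) ^ j * x i) ∧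
      Int.fract ((3:ℝ) ^ j * x i) < 2/3}.ncard ≤ k}

/-- Covering dimension at most `d`: every finite open cover has a finite open refinement of order
at most `d + 1`. -/
def CovDimLE (B : Type) [TopologicalSpace B] (d : ℕ) : Prop :=
  ∀ (I : Type) (_ : Finite I) (U : I → Set B), (∀ i, IsOpen (U i)) → (⋃ i, U i) = Set.univ →
    ∃ (J : Type) (_ : Finite J) (W : J → Set B), (∀ j, IsOpen (W j)) ∧ (⋃ j, W j) = Set.univ ∧
      (∀ j, ∃ i, W j ⊆ U i) ∧ ∀ b, {j | b ∈ W j}.ncard ≤ d + 1

/-- The closed unit ball of `ℝ^i`. -/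
def Ball (i : ℕ) : Set (EuclideanSpace ℝ (Fin i)) := Metric.closedBall 0 1

/-- The unit sphere of `ℝ^i`, of dimension `i - 1`. -/
def Sphere (i : ℕ) : Set (EuclideanSpace ℝ (Fin i)) := Metric.sphere 0 1

/-- `X` has the properties of Bestvina's characterization of the `k`-dimensional Menger
compactum: it is compact metrizable of covering dimension exactly `k`, nonempty and
`(k-1)`-connected (maps of spheres of dimension at most `k - 1` extend to the balls), locally
`(k-1)`-connected, and any two maps of the `k`-dimensional ball to `X` can be approximated by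
maps with disjoint images. -/
structure MengerType (k : ℕ) (X : Type) [TopologicalSpace X] : Prop where
  compact : CompactSpace X
  metrizable : MetrizableSpace X
  dim_le : CovDimLE X k
  dim_ge : ¬ CovDimLE X (k - 1)
  nonempty : Nonempty X
  connected : ∀ i : ℕ, 1 ≤ i → i ≤ k → ∀ φ : EuclideanSpace ℝ (Fin i) → X,
    ContinuousOn φ (Sphere i) → ∃ Φ : EuclideanSpace ℝ (Fin i) → X,
      ContinuousOn Φ (Ball i) ∧ Set.EqOn Φ φ (Sphere i)
  locally_connected : ∀ x : X, ∀ U ∈ 𝓝 x, ∃ V ∈ 𝓝 x, ∀ i : ℕ, 1 ≤ i → i ≤ k →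
    ∀ φ : EuclideanSpace ℝ (Fin i) → X, ContinuousOn φ (Sphere i) →
      Set.MapsTo φ (Sphere i) V → ∃ Φ : EuclideanSpace ℝ (Fin i) → X,
        ContinuousOn Φ (Ball i) ∧ Set.EqOn Φ φ (Sphere i) ∧ Set.MapsTo Φ (Ball i) U
  disjoint_cells : ∀ W : Set (X × X), IsOpen W → (∀ x, (x, x) ∈ W) →
    ∀ α β : EuclideanSpace ℝ (Fin k) → X, ContinuousOn α (Ball k) → ContinuousOn β (Ball k) →
      ∃ α' β' : EuclideanSpace ℝ (Fin k) → X, ContinuousOn α' (Ball k) ∧
        ContinuousOn β' (Ball k) ∧ (∀ z ∈ Ball k, (α z, α' z) ∈ W ∧ (β z, β' z) ∈ W) ∧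
        ∀ z ∈ Ball k, ∀ z' ∈ Ball k, α' z ≠ β' z'

/-- Transport of an action along a homeomorphism. -/
private theorem transport {G X Z : Type} [Monoid G] [TopologicalSpace G] [TopologicalSpace X]
    [TopologicalSpace Z] [MulAction G X] (hc : ContinuousSMul G X)
    (hf : ∀ (g : G) (x : X), g • x = x → g = 1) (h : X ≃ₜ Z) :
    ∃ _ : MulAction G Z, ContinuousSMul G Z ∧ (∀ (g : G) (z : Z), g • z = z → g = 1) ∧
      ∀ (g : G) (x : X), h (g • x) = g • h x := by
  let A : MulAction G Z :=
    { smul := fun g z => h (g • h.symm z)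
      one_smul := fun z => by
        show h ((1 : G) • h.symm z) = z
        rw [one_smul, h.apply_symm_apply]
      mul_smul := fun g g' z => by
        show h ((g * g') • h.symm z) = h (g • h.symm (h (g' • h.symm z)))
        rw [h.symm_apply_apply, mul_smul] }
  have hs : ∀ (g : G) (z : Z), A.smul g z = h (g • h.symm z) := fun _ _ => rfl
  refine ⟨A, ⟨?_⟩, ?_, ?_⟩
  · show Continuous fun q : G × Z => h (q.1 • h.symm q.2)
    exact h.continuous.comp (continuous_fst.smul (h.symm.continuous.comp continuous_snd))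
  · intro g z hz
    have h1 : h (g • h.symm z) = z := hz
    refine hf g (h.symm z) ?_
    rw [← h.symm_apply_apply (g • h.symm z), h1]
  · intro g x
    show h (g • x) = h (g • h.symm (h x))
    rw [h.symm_apply_apply]

/-- For all primes `p` and all `n ≥ 2`: (1) every compact metrizable free `A_p`-space with orbit
space of dimension at most `n + 1` has an equivariant map to a free `A_p`-space with the
characteristic properties of the Menger compactum of dimension `n`; (2) there are such spaces with
the characteristic properties of the Menger compactum of dimension `n + 1`; (3) if these properties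
do characterize the two Menger compacta (Bestvina's theorem), there are free actions of `A_p` on
them and an equivariant map from the first to the second. -/
theorem result (p : ℕ) [Fact p.Prime] (n : ℕ) (hn : 2 ≤ n) :
    (∀ (X : Type) [TopologicalSpace X] [CompactSpace X] [MetrizableSpace X]
        [MulAction (Multiplicative ℤ_[p]) X],
      ContinuousSMul (Multiplicative ℤ_[p]) X →
      (∀ (g : Multiplicative ℤ_[p]) (x : X), g • x = x → g = 1) →
      CovDimLE (MulAction.orbitRel.Quotient (Multiplicative ℤ_[p]) X) (n + 1) →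
      ∃ (Y : Type) (_ : TopologicalSpace Y) (_ : MulAction (Multiplicative ℤ_[p]) Y),
        ContinuousSMul (Multiplicative ℤ_[p]) Y ∧
        (∀ (g : Multiplicative ℤ_[p]) (y : Y), g • y = y → g = 1) ∧ MengerType n Y ∧
        ∃ f : X → Y, Continuous f ∧
          ∀ (g : Multiplicative ℤ_[p]) (x : X), f (g • x) = g • f x) ∧
    (∃ (X : Type) (_ : TopologicalSpace X) (_ : MulAction (Multiplicative ℤ_[p]) X),
      ContinuousSMul (Multiplicative ℤ_[p]) X ∧
      (∀ (g : Multiplicative ℤ_[p]) (x : X), g • x = x → g = 1) ∧ MengerType (n + 1) X ∧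
      CovDimLE (MulAction.orbitRel.Quotient (Multiplicative ℤ_[p]) X) (n + 1) ∧
      ∃ (Y : Type) (_ : TopologicalSpace Y) (_ : MulAction (Multiplicative ℤ_[p]) Y),
        ContinuousSMul (Multiplicative ℤ_[p]) Y ∧
        (∀ (g : Multiplicative ℤ_[p]) (y : Y), g • y = y → g = 1) ∧ MengerType n Y ∧
        ∃ f : X → Y, Continuous f ∧
          ∀ (g : Multiplicative ℤ_[p]) (x : X), f (g • x) = g • f x) ∧
    ((∀ k : ℕ, k = n ∨ k = n + 1 → ∀ (Z : Type) [TopologicalSpace Z], MengerType k Z →
        Nonempty (Z ≃ₜ MengerCompactum k)) →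
      ∃ (_ : MulAction (Multiplicative ℤ_[p]) (MengerCompactum (n + 1)))
        (_ : MulAction (Multiplicative ℤ_[p]) (MengerCompactum n)),
        ContinuousSMul (Multiplicative ℤ_[p]) (MengerCompactum (n + 1)) ∧
        ContinuousSMul (Multiplicative ℤ_[p]) (MengerCompactum n) ∧
        (∀ (g : Multiplicative ℤ_[p]) (x : MengerCompactum (n + 1)), g • x = x → g = 1) ∧
        (∀ (g : Multiplicative ℤ_[p]) (y : MengerCompactum n), g • y = y → g = 1) ∧
        ∃ f : MengerCompactum (n + 1) → MengerCompactum n, Continuous f ∧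
          ∀ (g : Multiplicative ℤ_[p]) (x : MengerCompactum (n + 1)),
            f (g • x) = g • f x) := by
  have key : ∀ (X : Type) [TopologicalSpace X] [CompactSpace X] [MetrizableSpace X]
        [MulAction (Multiplicative ℤ_[p]) X],
      ContinuousSMul (Multiplicative ℤ_[p]) X →
      (∀ (g : Multiplicative ℤ_[p]) (x : X), g • x = x → g = 1) →
      CovDimLE (MulAction.orbitRel.Quotient (Multiplicative ℤ_[p]) X) (n + 1) →
      ∃ (Y : Type) (_ : TopologicalSpace Y) (_ : MulAction (Multiplicative ℤ_[p]) Y),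
        ContinuousSMul (Multiplicative ℤ_[p]) Y ∧
        (∀ (g : Multiplicative ℤ_[p]) (y : Y), g • y = y → g = 1) ∧ MengerType n Y ∧
        ∃ f : X → Y, Continuous f ∧
          ∀ (g : Multiplicative ℤ_[p]) (x : X), f (g • x) = g • f x := by
    intro X _ _ _ _ hX hfree hdim
    obtain ⟨Y, t1, t2, t3, t4, t5, h1, h2, h3, h4, h5, h6, f, h7, h8⟩ :=
      AGM.main2 p n hn hfree hdim
    exact ⟨Y, t1, t4, t5, h1, ⟨t2, t3, h2, h3, h4.1, h4.2, h5, h6⟩, f, h7, h8⟩
  have key2 : ∃ (X : Type) (_ : TopologicalSpace X) (_ : MulAction (Multiplicative ℤ_[p]) X),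
      ContinuousSMul (Multiplicative ℤ_[p]) X ∧
      (∀ (g : Multiplicative ℤ_[p]) (x : X), g • x = x → g = 1) ∧ MengerType (n + 1) X ∧
      CovDimLE (MulAction.orbitRel.Quotient (Multiplicative ℤ_[p]) X) (n + 1) ∧
      ∃ (Y : Type) (_ : TopologicalSpace Y) (_ : MulAction (Multiplicative ℤ_[p]) Y),
        ContinuousSMul (Multiplicative ℤ_[p]) Y ∧
        (∀ (g : Multiplicative ℤ_[p]) (y : Y), g • y = y → g = 1) ∧ MengerType n Y ∧
        ∃ f : X → Y, Continuous f ∧
          ∀ (g : Multiplicative ℤ_[p]) (x : X), f (g • x) = g • f x := by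
    obtain ⟨X, t1, t2, t3, t4, t5, h1, h2, h3, h4, h5, h6, h7⟩ :=
      AGM.src_exists p (n + 1) (by omega)
    exact ⟨X, t1, t4, t5, h1, ⟨t2, t3, h2, h3, h5.1, h5.2, h6, h7⟩, h4, key X t5 h1 h4⟩
  refine ⟨key, key2, ?_⟩
  intro hB
  obtain ⟨X, t1, t2, t3, h1, h2, -, Y, u1, u2, u3, h3, h4, f, h5, h6⟩ := key2
  obtain ⟨a⟩ := hB (n + 1) (Or.inr rfl) X h2
  obtain ⟨b⟩ := hB n (Or.inl rfl) Y h4
  obtain ⟨A, a1, a2, a3⟩ := transport t3 h1 a
  obtain ⟨B, b1, b2, b3⟩ := transport u3 h3 b
  refine ⟨A, B, a1, b1, a2, b2, fun x => b (f (a.symm x)),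
    b.continuous.comp (h5.comp a.symm.continuous), fun g x => ?_⟩
  have e1 : a.symm (g • x) = g • a.symm x := by
    rw [Homeomorph.symm_apply_eq, a3, a.apply_symm_apply]
  show b (f (a.symm (g • x))) = g • b (f (a.symm x))
  rw [e1, h6, b3]

end Pool.Agent.Results.MP_b5674c_gt.MengerTypePairs
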