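import Pool.Agent.AGV.FinT3

/-!
Ageev's conjecture on equivariant maps between free Menger compacta, for actions whose orbit space
has dimension at most three: no nontrivial zero-dimensional compact group acting on the Menger
compactum of dimension `m + n` and acting freely on the Menger compactum of dimension `n ≥ 2` with an
orbit space of covering dimension at most three admits an equivariant map from the first to the second.
-/

set_option autoImplicit false

namespace Pool.Agent.Results.MP_b5674c_gt.OrbitDimensionThree

open AGV

/-- The `k`-dimensional Menger compactum, in its standard model: the points of the cube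
`[0,1]^(2k+1)` such that at every level `j` at most `k` of the coordinates `x i` have `3^j x i`
strictly inside the middle third of a unit interval. -/
def MengerCompactum (k : ℕ) : Set (Fin (2 * k + 1) → ℝ) :=
  {x | (∀ i, x i ∈ Set.Icc (0:ℝ) 1) ∧
    ∀ j : ℕ, {i | 1/3 < Int.fract ((3:ℝ) ^ j * x i) ∧
      Int.fract ((3:ℝ) ^ j * x i) < 2/3}.ncard ≤ k}

/-- Ageev's conjecture for target dimension `n ≥ 2` and orbit spaces of the target of covering
dimension at most three; and the general theorem behind it. -/
theorem result :
    (∀ (m n : ℕ), 0 < m → 2 ≤ n → ∀ (G : Type) [Group G] [TopologicalSpace G] [IsTopologicalGroup G]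
      [CompactSpace G] [TotallyDisconnectedSpace G] [Nontrivial G]
      [MulAction G (MengerCompactum (m + n))] [MulAction G (MengerCompactum n)],
      ContinuousSMul G (MengerCompactum (m + n)) → ContinuousSMul G (MengerCompactum n) →
      (∀ (g : G) (y : MengerCompactum n), g • y = y → g = 1) →
      CovDimLE (MulAction.orbitRel.Quotient G (MengerCompactum n)) 3 →
      ¬ ∃ f : MengerCompactum (m + n) → MengerCompactum n,
        Continuous f ∧ ∀ (g : G) (x : MengerCompactum (m + n)), f (g • x) = g • f x) ∧
    (∀ (X : Type) [MetricSpace X] [CompactSpace X] [ConnectedSpace X] [LocallyConnectedSpace X],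
      VC X 1 → VC X 2 → VC X 3 → VLC X 1 → VLC X 2 → VLC X 3 →
      ∀ (Y : Type) [MetricSpace Y] [CompactSpace Y], (VC X 4 ∨ CovDimLE Y 2) →
      ∀ (G : Type) [Group G] [TopologicalSpace G] [IsTopologicalGroup G] [CompactSpace G]
        [TotallyDisconnectedSpace G] [Nontrivial G] [MulAction G X] [MulAction G Y],
      ContinuousSMul G X → ContinuousSMul G Y →
      (∀ (g : G) (y : Y), g • y = y → g = 1) →
      CovDimLE (MulAction.orbitRel.Quotient G Y) 3 →
      ¬ ∃ f : X → Y, Continuous f ∧ ∀ (g : G) (x : X), f (g • x) = g • f x) := by
  constructor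
  · intro m n hm hn G _ _ _ _ _ _ _ _ hX hY hfree hd
    let _ : MulAction G (Helper87.AG.Menger (Fin (2 * (m + n) + 1)) (m + n)) :=
      inferInstanceAs (MulAction G (MengerCompactum (m + n)))
    let _ : MulAction G (Helper87.AG.Menger (Fin (2 * n + 1)) n) :=
      inferInstanceAs (MulAction G (MengerCompactum n))
    have : ContinuousSMul G (Helper87.AG.Menger (Fin (2 * (m + n) + 1)) (m + n)) := hX
    have : ContinuousSMul G (Helper87.AG.Menger (Fin (2 * n + 1)) n) := hY
    exact menger_three (G := G) hm hn hfree hd
  · intro X _ _ _ _ h1 h2 h3 l1 l2 l3 Y _ _ h4 G _ _ _ _ _ _ _ _ hX hY hfree hd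
    exact t3_main h1 h2 h3 l1 l2 l3 h4 hfree hd

end Pool.Agent.Results.MP_b5674c_gt.OrbitDimensionThree
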