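import Pool.Agent.Helper87.AG.Core
import Pool.Agent.Helper87.AG.Bdry
import Pool.Agent.Helper87.AG.Conn
import Pool.Agent.Helper87.AG.Lift

/-!
Ageev's conjecture on equivariant maps between free Menger compacta, for the target dimension
`n = 1`: no group acting on the Menger compacta of dimensions `m + 1` and `1` (compact, nontrivial,
acting freely on the second one) admits an equivariant map from the first to the second.
-/

set_option autoImplicit false

namespace Pool.Agent.Results.MP_b5674c_gt.TargetDimensionOne

/-- The `k`-dimensional Menger compactum, in its standard model: the points of the cube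
`[0,1]^(2k+1)` such that at every level `j` at most `k` of the coordinates `x i` have `3^j x i`
strictly inside the middle third of a unit interval. -/
def MengerCompactum (k : ℕ) : Set (Fin (2 * k + 1) → ℝ) :=
  {x | (∀ i, x i ∈ Set.Icc (0:ℝ) 1) ∧
    ∀ j : ℕ, {i | 1/3 < Int.fract ((3:ℝ) ^ j * x i) ∧
      Int.fract ((3:ℝ) ^ j * x i) < 2/3}.ncard ≤ k}

/-- Ageev's conjecture for `n = 1`: there is no equivariant map from the `(m+1)`-dimensional to
the one-dimensional Menger compactum, if `m > 0` and the nontrivial compact group `G` acts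
(freely) on both; and the general theorem behind it. -/
theorem result :
    (∀ (m : ℕ), 0 < m → ∀ (G : Type) [Group G] [TopologicalSpace G] [CompactSpace G]
      [Nontrivial G] [MulAction G (MengerCompactum (m + 1))] [MulAction G (MengerCompactum 1)],
      ContinuousSMul G (MengerCompactum (m + 1)) → ContinuousSMul G (MengerCompactum 1) →
      (∀ (g : G) (y : MengerCompactum 1), g • y = y → g = 1) →
      ¬ ∃ f : MengerCompactum (m + 1) → MengerCompactum 1,
        Continuous f ∧ ∀ (g : G) (x : MengerCompactum (m + 1)), f (g • x) = g • f x) ∧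
    (∀ (X : Type) [MetricSpace X] [CompactSpace X] [ConnectedSpace X] [LocallyConnectedSpace X],
      (∀ φ : X → Circle, Continuous φ →
        ∃ θ : X → ℝ, Continuous θ ∧ ∀ x, φ x = Circle.exp (θ x)) →
      ∀ (Y : Type) [TopologicalSpace Y] [CompactSpace Y] [T2Space Y],
      (∀ (y : Y) (U : Set Y), IsOpen U → y ∈ U →
        ∃ O : Set Y, IsOpen O ∧ y ∈ O ∧ O ⊆ U ∧ IsTotallyDisconnected (frontier O)) →
      ∀ (G : Type) [Group G] [TopologicalSpace G] [CompactSpace G]
        [Nontrivial G] [MulAction G X] [MulAction G Y],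
      ContinuousSMul G X → ContinuousSMul G Y →
      (∀ (g : G) (y : Y), g • y = y → g = 1) →
      ¬ ∃ f : X → Y, Continuous f ∧ ∀ (g : G) (x : X), f (g • x) = g • f x) := by
  constructor
  · intro m hm G _ _ _ _ _ _ hX hY hfree ⟨f, hf, hfe⟩
    have : CompactSpace (Helper87.AG.Menger (Fin (2 * (m + 1) + 1)) (m + 1)) :=
      isCompact_iff_compactSpace.mp (Helper87.AG.menger_isCompact _)
    have : CompactSpace (Helper87.AG.Menger (Fin (2 * 1 + 1)) 1) :=
      isCompact_iff_compactSpace.mp (Helper87.AG.menger_isCompact _)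
    have : ConnectedSpace (Helper87.AG.Menger (Fin (2 * (m + 1) + 1)) (m + 1)) :=
      Helper87.AG.menger_connected (by omega)
    have : LocallyConnectedSpace (Helper87.AG.Menger (Fin (2 * (m + 1) + 1)) (m + 1)) :=
      Helper87.AG.menger_locallyConnected (by omega)
    let _ : MulAction G (Helper87.AG.Menger (Fin (2 * (m + 1) + 1)) (m + 1)) :=
      inferInstanceAs (MulAction G (MengerCompactum (m + 1)))
    let _ : MulAction G (Helper87.AG.Menger (Fin (2 * 1 + 1)) 1) :=
      inferInstanceAs (MulAction G (MengerCompactum 1))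
    have : ContinuousSMul G (Helper87.AG.Menger (Fin (2 * (m + 1) + 1)) (m + 1)) := hX
    have : ContinuousSMul G (Helper87.AG.Menger (Fin (2 * 1 + 1)) 1) := hY
    exact Helper87.AG.no_equivariant_map (G := G)
      (X := Helper87.AG.Menger (Fin (2 * (m + 1) + 1)) (m + 1))
      (Y := Helper87.AG.Menger (Fin (2 * 1 + 1)) 1) (f := f)
      (fun φ => Helper87.AG.menger_lift (by omega) φ)
      (fun y U hU hy => Helper87.AG.menger_one_boundary y U hU hy) hf hfe hfree
  · intro X _ _ _ _ hlift Y _ _ _ hY G _ _ _ _ _ _ hX hY' hfree ⟨f, hf, hfe⟩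
    exact Helper87.AG.no_equivariant_map (G := G) (f := f) (fun φ => by
      obtain ⟨θ, hθ, h⟩ := hlift φ φ.continuous
      exact ⟨⟨θ, hθ⟩, h⟩) hY hf hfe hfree

end Pool.Agent.Results.MP_b5674c_gt.TargetDimensionOne
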